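import Pool.Agent.Y729.AE.Frey
import Pool.Agent.Y729.FW.Surj

/-!
# Many Weil restrictions of elliptic curves over a fixed extension
-/

set_option autoImplicit false

namespace Pool.Agent.Q19.FG

open NumberField IsDedekindDomain Module Finset
open Pool.Agent.H691R3 (fv log_product_formula log_fv_support_finite)
open Pool.Agent.TH876.FH (IsPeriod arch jInv Hj_norm)
open Pool.Agent.Y729.AE
open Pool.Agent.Y729.FW (sum_mult)

/-- many integers in a box -/
theorem box (L : Type) [Field L] [NumberField L] : ∃ Ω : ℝ, 1 ≤ Ω ∧ ∀ R : ℕ,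
    ∃ F : Finset (𝓞 L), F.card = (R + 1) ^ finrank ℚ L ∧
      ∀ b ∈ F, ∀ w : InfinitePlace L, w (b : L) ≤ Ω * R := by
  classical
  obtain ⟨ω, hω⟩ : ∃ ω, ω = RingOfIntegers.basis L := ⟨_, rfl⟩
  obtain ⟨S, hS⟩ : ∃ S : ℝ, S = ∑ w : InfinitePlace L, ∑ i, w ((ω i : 𝓞 L) : L) := ⟨_, rfl⟩
  have hS0 : 0 ≤ S := by
    rw [hS]
    exact Finset.sum_nonneg fun w _ => Finset.sum_nonneg fun i _ => apply_nonneg w _
  refine ⟨1 + S, by linarith, fun R => ?_⟩
  obtain ⟨f, hf⟩ : ∃ f : (Free.ChooseBasisIndex ℤ (𝓞 L) → Fin (R + 1)) → 𝓞 L,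
      f = fun m => ω.equivFun.symm fun i => ((m i : ℕ) : ℤ) := ⟨_, rfl⟩
  have hinj : Function.Injective f := by
    intro m m' h
    rw [hf] at h
    have h1 := ω.equivFun.symm.injective h
    funext i
    have h2 := congrFun h1 i
    exact Fin.ext (by exact_mod_cast h2)
  refine ⟨Finset.univ.image f, ?_, ?_⟩
  · rw [Finset.card_image_of_injective _ hinj, Finset.card_univ, Fintype.card_fun, Fintype.card_fin,
      ← RingOfIntegers.rank, Module.finrank_eq_card_basis ω]
  · intro b hb w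
    obtain ⟨m, -, rfl⟩ := Finset.mem_image.1 hb
    have h1 : ((f m : 𝓞 L) : L) = ∑ i, ((m i : ℕ) : L) * ((ω i : 𝓞 L) : L) := by
      rw [hf]
      show ((ω.equivFun.symm fun i => ((m i : ℕ) : ℤ) : 𝓞 L) : L) = _
      rw [Basis.equivFun_symm_apply]
      have e0 := map_sum (algebraMap (𝓞 L) L) (fun i => (((m i : ℕ) : ℤ)) • ω i) Finset.univ
      refine e0.trans (Finset.sum_congr rfl fun i _ => ?_)
      rw [zsmul_eq_mul, map_mul, map_intCast]
      push_cast
      rfl
    rw [h1]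
    have h2 : w (∑ i, ((m i : ℕ) : L) * ((ω i : 𝓞 L) : L)) ≤
        ∑ i, w (((m i : ℕ) : L) * ((ω i : 𝓞 L) : L)) := by
      have := AbsoluteValue.sum_le w.1 Finset.univ fun i => ((m i : ℕ) : L) * ((ω i : 𝓞 L) : L)
      exact this
    refine h2.trans ?_
    have h3 : ∀ i, w (((m i : ℕ) : L) * ((ω i : 𝓞 L) : L)) ≤ w ((ω i : 𝓞 L) : L) * R := by
      intro i
      rw [map_mul]
      have e1 : w ((m i : ℕ) : L) = (m i : ℕ) := Pool.Agent.Y729.FW.w_nat w _
      rw [e1, mul_comm]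
      refine mul_le_mul_of_nonneg_left ?_ (apply_nonneg w _)
      exact_mod_cast Nat.lt_succ_iff.1 (m i).2
    refine (Finset.sum_le_sum fun i _ => h3 i).trans ?_
    rw [← Finset.sum_mul]
    refine mul_le_mul_of_nonneg_right ?_ (Nat.cast_nonneg _)
    have h4 : ∑ i, w ((ω i : 𝓞 L) : L) ≤ S := by
      rw [hS]
      exact Finset.single_le_sum (f := fun w : InfinitePlace L => ∑ i, w ((ω i : 𝓞 L) : L))
        (fun w _ => Finset.sum_nonneg fun i _ => apply_nonneg w _) (Finset.mem_univ w)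
    linarith

/-- the curve `y² + x y = x³ + b` -/
def Cb {L : Type} [Field L] (b : L) : WeierstrassCurve L := ⟨1, 0, 0, 0, b⟩

theorem Cb_disc {L : Type} [Field L] (b : L) : (Cb b).Δ = -(b * (1 + 432 * b)) := by
  simp only [Cb, WeierstrassCurve.Δ, WeierstrassCurve.b₂, WeierstrassCurve.b₄, WeierstrassCurve.b₆,
    WeierstrassCurve.b₈]
  ring

theorem Cb_c4 {L : Type} [Field L] (b : L) : (Cb b).c₄ = 1 := by
  simp only [Cb, WeierstrassCurve.c₄, WeierstrassCurve.b₂, WeierstrassCurve.b₄]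
  ring

variable {L : Type} [Field L] [NumberField L]

theorem Cb_int (b : 𝓞 L) (v : HeightOneSpectrum (𝓞 L)) : IntAt v (Cb (b : L)) := by
  unfold IntAt Cb
  refine ⟨?_, ?_, ?_, ?_, ?_⟩
  · simp
  · simp
  · simp
  · simp
  · exact v.valuation_le_one b

/-- the discriminant and the archimedean part -/
theorem size {c T : ℝ} (hT : 1 ≤ T)
    (hc : ∀ τ : UpperHalfPlane, arch τ ≤ Real.log (max ‖jInv τ‖ 1) + c)
    (b : 𝓞 L) (hb : ∀ w : InfinitePlace L, w (b : L) ≤ T) (hD : (Cb (b : L)).Δ ≠ 0)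
    (τ : InfinitePlace L → UpperHalfPlane)
    (hτ : IsPeriod ((Cb (b : L)).c₄ ^ 3 / (Cb (b : L)).Δ) τ) :
    ∑ᶠ v : HeightOneSpectrum (𝓞 L), (discExp v (Cb (b : L)) : ℝ) *
        Real.log (Ideal.absNorm v.asIdeal : ℝ) +
      ∑ w : InfinitePlace L, (w.mult : ℝ) * arch (τ w) ≤
    finrank ℚ L * (Real.log 433 + 2 * Real.log T + |c|) := by
  obtain ⟨D, hDd⟩ : ∃ D, D = (Cb (b : L)).Δ := ⟨_, rfl⟩
  have hD0 : D ≠ 0 := by rw [hDd]; exact hD
  have hint : ∀ v : HeightOneSpectrum (𝓞 L), fv v D ≤ 1 := fun v =>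
    fv_le_one v (by rw [hDd]; exact (int_disc v _ (Cb_int b v)).1)
  have h1 : ∑ᶠ v : HeightOneSpectrum (𝓞 L), (discExp v (Cb (b : L)) : ℝ) *
      Real.log (Ideal.absNorm v.asIdeal : ℝ) ≤
      ∑ᶠ v : HeightOneSpectrum (𝓞 L), -Real.log (fv v D) := by
    refine finsum_le_finsum' (disc_support _ hD) ?_ fun v => ?_
    · refine (log_fv_support_finite hD0).subset ?_
      intro v hv
      rw [Function.mem_support] at hv ⊢
      intro h
      exact hv (by rw [h, neg_zero])
    · rw [hDd]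
      exact disc_le_of_int v _ hD (Cb_int b v)
  have h2 : ∑ᶠ v : HeightOneSpectrum (𝓞 L), -Real.log (fv v D) =
      ∑ w : InfinitePlace L, (w.mult : ℝ) * Real.log (w D) := by
    have h := log_product_formula hD0
    rw [finsum_neg_distrib]
    linarith
  rw [h2] at h1
  have h3 : ∑ w : InfinitePlace L, (w.mult : ℝ) * Real.log (w D) +
      ∑ w : InfinitePlace L, (w.mult : ℝ) * arch (τ w) ≤
      finrank ℚ L * (Real.log 433 + 2 * Real.log T + |c|) := by
    rw [← Finset.sum_add_distrib, ← sum_mult, Finset.sum_mul]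
    refine Finset.sum_le_sum fun w _ => ?_
    rw [← mul_add]
    refine mul_le_mul_of_nonneg_left ?_ (Nat.cast_nonneg _)
    have k1 := hc (τ w)
    rw [Hj_norm _ τ hτ w] at k1
    have k2 : w ((Cb (b : L)).c₄ ^ 3 / (Cb (b : L)).Δ) = (w D)⁻¹ := by
      rw [Cb_c4, one_pow, one_div, map_inv₀, hDd]
    rw [k2] at k1
    have hwD : 0 < w D := InfinitePlace.pos_iff.2 hD0
    have k3 : Real.log (w D) + Real.log (max (w D)⁻¹ 1) = Real.log (max 1 (w D)) := by
      rw [← Real.log_mul hwD.ne' (by positivity), mul_max_of_nonneg _ _ hwD.le,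
        mul_inv_cancel₀ hwD.ne', mul_one]
    have k4 : max 1 (w D) ≤ 433 * T ^ 2 := by
      refine max_le (by nlinarith) ?_
      rw [hDd, Cb_disc]
      have e1 : w (-((b : L) * (1 + 432 * (b : L)))) = w (b : L) * w (1 + 432 * (b : L)) := by
        rw [← map_mul]
        exact w.1.map_neg _
      rw [e1]
      have e2 : w (1 + 432 * (b : L)) ≤ 1 + 432 * w (b : L) := by
        refine (w.1.add_le _ _).trans (le_of_eq ?_)
        have e3 : w.1 (1 : L) = 1 := map_one _
        have e4 : w.1 (432 * (b : L)) = 432 * w.1 (b : L) := by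
          rw [map_mul]
          congr 1
          exact_mod_cast Pool.Agent.Y729.FW.w_nat w 432
        rw [e3, e4]
        rfl
      have e5 := hb w
      have e6 : 0 ≤ w (b : L) := apply_nonneg w _
      calc w (b : L) * w (1 + 432 * (b : L)) ≤ w (b : L) * (1 + 432 * w (b : L)) :=
            mul_le_mul_of_nonneg_left e2 e6
        _ ≤ T * (1 + 432 * T) := by nlinarith
        _ ≤ 433 * T ^ 2 := by nlinarith
    have k5 : Real.log (max 1 (w D)) ≤ Real.log 433 + 2 * Real.log T := by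
      refine (Real.log_le_log (by positivity) k4).trans (le_of_eq ?_)
      rw [Real.log_mul (by norm_num) (by positivity), Real.log_pow]
      push_cast
      ring
    have k6 := le_abs_self c
    linarith
  linarith

end Pool.Agent.Q19.FG
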