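import Pool.Agent.Q19.FG.Low

/-!
# Many Weil restrictions of elliptic curves over a fixed extension: the count
-/

set_option autoImplicit false

namespace Pool.Agent.Q19.FG

open NumberField IsDedekindDomain Module Finset
open Pool.Agent.TH876.FH (IsPeriod arch jInv)
open Pool.Agent.Y729.AE

theorem two_inj {L : Type} [Field L] [NumberField L] {x y z : 𝓞 L} (hxy : x ≠ y) (hxz : x ≠ z)
    (h1 : (Cb (x : L)).Δ = (Cb (y : L)).Δ) (h2 : (Cb (x : L)).Δ = (Cb (z : L)).Δ) : y = z := by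
  rw [Cb_disc, Cb_disc] at h1 h2
  have e1 : ((x : L) - y) * (1 + 432 * ((x : L) + y)) = 0 := by linear_combination -h1
  have e2 : ((x : L) - z) * (1 + 432 * ((x : L) + z)) = 0 := by linear_combination -h2
  have f1 : (1 + 432 * ((x : L) + y)) = 0 := by
    rcases mul_eq_zero.1 e1 with h | h
    · exact absurd (RingOfIntegers.ext (sub_eq_zero.1 h)) hxy
    · exact h
  have f2 : (1 + 432 * ((x : L) + z)) = 0 := by
    rcases mul_eq_zero.1 e2 with h | h
    · exact absurd (RingOfIntegers.ext (sub_eq_zero.1 h)) hxz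
    · exact h
  apply RingOfIntegers.ext
  have : (432 : L) * ((y : L) - z) = 0 := by linear_combination f1 - f2
  rcases mul_eq_zero.1 this with h | h
  · exact absurd h (by norm_num)
  · exact sub_eq_zero.1 h

/-- **Many Weil restrictions** -/
theorem low (K : Type) [Field K] [NumberField K] (g : ℕ) (hg : 1 ≤ g)
    (L : IntermediateField K (AlgebraicClosure K)) (hnf : NumberField L) (hL : finrank K L = g) :
    ∃ b : ℝ, 0 < b ∧ ∃ B₀ : ℝ, ∀ B : ℝ, B₀ ≤ B →
      ∃ F : Finset (IntermediateField K (AlgebraicClosure K) × AlgebraicClosure K),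
        (F : Set (IntermediateField K (AlgebraicClosure K) × AlgebraicClosure K)) ⊆ FamK K g B ∧
        (∀ p ∈ F, p.1 = L) ∧ b * B ^ (6 * finrank ℚ K) ≤ F.card := by
  classical
  obtain ⟨c, hc⟩ := Pool.Agent.TH876.FH.ana.2
  obtain ⟨Ω, hΩ, hbox⟩ := box L
  have hd0 : (0 : ℝ) < finrank ℚ K := by exact_mod_cast (finrank_pos : 0 < finrank ℚ K)
  have hg0 : (0 : ℝ) < g := by exact_mod_cast hg
  have hdeg : finrank ℚ L = finrank ℚ K * g := by
    rw [← finrank_mul_finrank ℚ K L, hL]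
  obtain ⟨n, hn⟩ : ∃ n, n = finrank ℚ L := ⟨_, rfl⟩
  have hn1 : 1 ≤ n := by rw [hn]; exact finrank_pos
  have hnr : (n : ℝ) = finrank ℚ K * g := by rw [hn, hdeg]; push_cast; rfl
  have hnr1 : (1 : ℝ) ≤ n := by exact_mod_cast hn1
  have one_disc : ∀ (M : Type) [Field M] [NumberField M], 0 ≤ Real.log |(discr M : ℝ)| := by
    intro M _ _
    refine Real.log_nonneg ?_
    have h1 : (1 : ℤ) ≤ |discr M| := Int.one_le_abs (discr_ne_zero M)
    exact_mod_cast h1
  obtain ⟨D, hD⟩ : ∃ D, D = Real.log |(discr L : ℝ)| := ⟨_, rfl⟩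
  have hD0 : 0 ≤ D := by rw [hD]; exact one_disc L
  have hDK := one_disc K
  have hl : 0 ≤ Real.log 433 := Real.log_nonneg (by norm_num)
  obtain ⟨s, hs⟩ : ∃ s, s = Real.exp (-((Real.log 433 + |c| + 6 * D) / 2)) := ⟨_, rfl⟩
  have hs0 : 0 < s := by rw [hs]; exact Real.exp_pos _
  have hs1 : s ≤ 1 := by
    rw [hs, Real.exp_le_one_iff]
    have := abs_nonneg c
    linarith
  have hls : Real.log s = -((Real.log 433 + |c| + 6 * D) / 2) := by rw [hs, Real.log_exp]
  have hq : 0 < (s / Ω) ^ n := by positivity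
  refine ⟨(s / Ω) ^ n / 4, by positivity, max ((1 / s) ^ g) (max 1 (4 / (s / Ω) ^ n)),
    fun B hB => ?_⟩
  have hB1 : (1 / s) ^ g ≤ B := (le_max_left _ _).trans hB
  have hB2 : 1 ≤ B := ((le_max_left _ _).trans (le_max_right _ _)).trans hB
  have hB3 : 4 / (s / Ω) ^ n ≤ B := ((le_max_right _ _).trans (le_max_right _ _)).trans hB
  have hB0 : 0 < B := by linarith
  obtain ⟨T, hT⟩ : ∃ T, T = s * B ^ (6 / (g : ℝ)) := ⟨_, rfl⟩
  have hBp : 0 < B ^ (6 / (g : ℝ)) := Real.rpow_pos_of_pos hB0 _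
  have hT1 : 1 ≤ T := by
    have h1 : ((1 / s) ^ g) ^ (6 / (g : ℝ)) ≤ B ^ (6 / (g : ℝ)) :=
      Real.rpow_le_rpow (by positivity) hB1 (by positivity)
    have h2 : ((1 / s) ^ g) ^ (6 / (g : ℝ)) = (1 / s) ^ 6 := by
      rw [← Real.rpow_natCast, ← Real.rpow_mul (by positivity)]
      have : (g : ℝ) * (6 / g) = (6 : ℕ) := by
        push_cast
        field_simp
      rw [this, Real.rpow_natCast]
    rw [h2] at h1
    have h3 : (1 : ℝ) ≤ 1 / s := by
      rw [le_div_iff₀ hs0]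
      linarith
    have h4 : 1 / s ≤ (1 / s) ^ 6 := le_self_pow₀ h3 (by norm_num)
    have h5 : 1 / s ≤ B ^ (6 / (g : ℝ)) := h4.trans h1
    rw [div_le_iff₀ hs0] at h5
    rw [hT]
    linarith
  have hlT : Real.log T = Real.log s + 6 / g * Real.log B := by
    rw [hT, Real.log_mul hs0.ne' hBp.ne', Real.log_rpow hB0]
  obtain ⟨R, hR⟩ : ∃ R, R = ⌊T / Ω⌋₊ := ⟨_, rfl⟩
  have hΩ0 : 0 < Ω := by linarith
  have hR1 : Ω * R ≤ T := by
    have : (R : ℝ) ≤ T / Ω := by rw [hR]; exact Nat.floor_le (by positivity)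
    rw [le_div_iff₀ hΩ0] at this
    linarith
  have hR2 : T / Ω ≤ (R : ℝ) + 1 := by
    rw [hR]
    exact (Nat.lt_floor_add_one _).le
  obtain ⟨F, hF, hFb⟩ := hbox R
  obtain ⟨F', hF'⟩ : ∃ F', F' = F.filter fun b : 𝓞 L => (Cb (b : L)).Δ ≠ 0 := ⟨_, rfl⟩
  have hcard : F.card ≤ F'.card + 2 := by
    have h1 := Finset.card_filter_add_card_filter_not (s := F) fun b : 𝓞 L => (Cb (b : L)).Δ ≠ 0
    have h2 : (F.filter fun b : 𝓞 L => ¬ (Cb (b : L)).Δ ≠ 0).card ≤ 2 := by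
      by_contra hcon
      obtain ⟨x, hx, y, hy, z, hz, hxy, hxz, hyz⟩ := Finset.two_lt_card.1 (not_le.1 hcon)
      have e1 := not_not.1 (Finset.mem_filter.1 hx).2
      have e2 := not_not.1 (Finset.mem_filter.1 hy).2
      have e3 := not_not.1 (Finset.mem_filter.1 hz).2
      exact hyz (two_inj hxy hxz (e1.trans e2.symm) (e1.trans e3.symm))
    rw [← hF'] at h1
    omega
  obtain ⟨Ψ, hΨ⟩ : ∃ Ψ : 𝓞 L → IntermediateField K (AlgebraicClosure K) × AlgebraicClosure K,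
    Ψ = fun b : 𝓞 L => (L, (((Cb (b : L)).c₄ ^ 3 / (Cb (b : L)).Δ : L) : AlgebraicClosure K)) := ⟨_, rfl⟩
  have hfib : F'.card ≤ 2 * (F'.image Ψ).card := by
    refine Finset.card_le_mul_card_image F' 2 fun y _ => ?_
    by_contra hcon
    obtain ⟨x, hx, y', hy, z, hz, hxy, hxz, hyz⟩ := Finset.two_lt_card.1 (not_le.1 hcon)
    rw [Finset.mem_filter, hF', Finset.mem_filter, hΨ] at hx hy hz
    have key : ∀ u v : 𝓞 L, (Cb (u : L)).Δ ≠ 0 → (Cb (v : L)).Δ ≠ 0 →
        (((Cb (u : L)).c₄ ^ 3 / (Cb (u : L)).Δ : L) : AlgebraicClosure K) =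
        (((Cb (v : L)).c₄ ^ 3 / (Cb (v : L)).Δ : L) : AlgebraicClosure K) →
        (Cb (u : L)).Δ = (Cb (v : L)).Δ := by
      intro u v hu hv h
      have h1 := Subtype.ext h
      rw [Cb_c4, Cb_c4, one_pow, one_div, one_div] at h1
      exact inv_injective h1
    have g1 := (Prod.ext_iff.1 (hx.2.trans hy.2.symm)).2
    have g2 := (Prod.ext_iff.1 (hx.2.trans hz.2.symm)).2
    exact hyz (two_inj hxy hxz (key _ _ hx.1.2 hy.1.2 g1) (key _ _ hx.1.2 hz.1.2 g2))
  refine ⟨F'.image Ψ, ?_, ?_, ?_⟩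
  · intro p hp
    obtain ⟨b, hb, rfl⟩ := Finset.mem_image.1 (Finset.mem_coe.1 hp)
    rw [hF', Finset.mem_filter] at hb
    obtain ⟨hb1, hb2⟩ := hb
    have hτ : ∀ w : InfinitePlace L, ∃ τ : UpperHalfPlane,
        jInv τ = w.embedding ((Cb (b : L)).c₄ ^ 3 / (Cb (b : L)).Δ) :=
      fun w => Pool.Agent.Y729.FW.j_surj _
    choose τ hτ using hτ
    rw [hΨ]
    refine ⟨hnf, Cb (b : L), τ, hL, hb2, rfl, hτ, ?_⟩
    have h1 := size hT1 hc b (fun w => (hFb b hb1 w).trans hR1) hb2 τ hτ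
    have h2 := hRes_formula (K := K) (Cb (b : L)) τ
    have h3 : 12 * (finrank ℚ K : ℝ) * hRes K (Cb (b : L)) τ ≤
        12 * (finrank ℚ K : ℝ) * Real.log B := by
      rw [h2, hL, ← hD]
      rw [← hn] at h1
      have h4 : (n : ℝ) * (2 * (6 / g * Real.log B)) = 12 * finrank ℚ K * Real.log B := by
        rw [hnr]
        field_simp
        ring
      have h5 : (0 : ℝ) ≤ g * Real.log |(discr K : ℝ)| := by positivity
      have h6 : 6 * D ≤ n * (6 * D) := le_mul_of_one_le_left (by positivity) hnr1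
      rw [hlT, hls] at h1
      have h7 : (n : ℝ) * (Real.log 433 + 2 * (-((Real.log 433 + |c| + 6 * D) / 2) +
          6 / g * Real.log B) + |c|) = n * (2 * (6 / g * Real.log B)) - n * (6 * D) := by
        ring
      rw [h7, h4] at h1
      linarith
    exact le_of_mul_le_mul_left h3 (by positivity)
  · intro p hp
    obtain ⟨b, hb, rfl⟩ := Finset.mem_image.1 hp
    rw [hΨ]
  · have h1 : (s / Ω) ^ n * B ^ (6 * finrank ℚ K) ≤ (F.card : ℝ) := by
      rw [hF, ← hn]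
      push_cast
      have h2 : (T / Ω) ^ n ≤ ((R : ℝ) + 1) ^ n := pow_le_pow_left₀ (by positivity) hR2 n
      refine le_trans (le_of_eq ?_) h2
      have h3 : T / Ω = s / Ω * B ^ (6 / (g : ℝ)) := by rw [hT]; ring
      rw [h3, mul_pow]
      congr 1
      rw [← Real.rpow_natCast (B ^ (6 / (g : ℝ))) n, ← Real.rpow_mul hB0.le, hnr]
      have h4 : 6 / (g : ℝ) * (finrank ℚ K * g) = ((6 * finrank ℚ K : ℕ) : ℝ) := by
        push_cast
        field_simp
      rw [h4, Real.rpow_natCast]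
    have h2 : 4 ≤ (s / Ω) ^ n * B ^ (6 * finrank ℚ K) := by
      have h3 : B ≤ B ^ (6 * finrank ℚ K) :=
        le_self_pow₀ hB2 (by have := (finrank_pos : 0 < finrank ℚ K); omega)
      rw [div_le_iff₀ hq] at hB3
      nlinarith
    have h3 : (F.card : ℝ) ≤ 2 * (F'.image Ψ).card + 2 := by
      have : F.card ≤ 2 * (F'.image Ψ).card + 2 := by omega
      exact_mod_cast this
    have h4 : (s / Ω) ^ n / 4 * B ^ (6 * finrank ℚ K) =
        ((s / Ω) ^ n * B ^ (6 * finrank ℚ K)) / 4 := by ring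
    rw [h4]
    linarith

end Pool.Agent.Q19.FG
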